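import Mathlib

set_option autoImplicit false

namespace Pool.Agent.Results.MP_039f74_co.Disproof

/-- The edge boundary of `A` with respect to `S`. -/
def bdry {G : Type} [AddCommGroup G] [DecidableEq G] (S A : Finset G) : ℕ :=
  ((A ×ˢ S).filter (fun p => p.1 + p.2 ∉ A)).card

abbrev G0 := ZMod 2 × ZMod 2 × ZMod 4 × ZMod 4
abbrev H0 := ZMod 2 × ZMod 2 × ZMod 2 × ZMod 2

def S0 : Finset G0 := {(0, 0, 1, 0), (1, 0, 1, 0), (0, 1, 1, 0), (0, 0, 0, 1)}
def A0 : Finset G0 := Finset.univ.filter (fun x => x.2.2.2 = 0)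

lemma gen0 : ∀ x : G0, ∃ a b c d : Fin 4,
    x = a.val • ((0, 0, 1, 0) : G0) + b.val • ((1, 0, 1, 0) : G0) + c.val • ((0, 1, 1, 0) : G0)
      + d.val • ((0, 0, 0, 1) : G0) := by decide +kernel

lemma gen : AddSubgroup.closure (S0 : Set G0) = ⊤ := by
  rw [eq_top_iff]
  intro x _
  obtain ⟨a, b, c, d, rfl⟩ := gen0 x
  refine add_mem (add_mem (add_mem (nsmul_mem ?_ _) (nsmul_mem ?_ _)) (nsmul_mem ?_ _))
    (nsmul_mem ?_ _) <;> exact AddSubgroup.subset_closure (by simp [S0])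

def red : ZMod 4 →+ ZMod 2 := (ZMod.castHom (by norm_num : 2 ∣ 4) (ZMod 2)).toAddMonoidHom

def f : G0 →+ H0 := (AddMonoidHom.id _).prodMap ((AddMonoidHom.id _).prodMap (red.prodMap red))

lemma f_surj : Function.Surjective f := by
  have : ∀ y : ZMod 2, ∃ x, red x = y := by
    intro y
    exact ZMod.castHom_surjective (by norm_num : 2 ∣ 4) y
  rintro ⟨a, b, c, d⟩
  obtain ⟨c', rfl⟩ := this c
  obtain ⟨d', rfl⟩ := this d
  exact ⟨(a, b, c', d'), rfl⟩

lemma rank0 : AddGroup.rank G0 = 4 := by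
  apply le_antisymm
  · exact (AddGroup.rank_le gen).trans (by decide +kernel)
  · have h1 := AddGroup.rank_le_of_surjective f f_surj
    have h2 : Nat.card H0 ∣ 2 ^ AddGroup.rank H0 :=
      card_dvd_exponent_nsmul_rank' H0 (by decide +kernel)
    have h3 : Nat.card H0 = 2 ^ 4 := by simp
    rw [h3] at h2
    exact ((Nat.pow_dvd_pow_iff_le_right (by norm_num)).mp h2).trans h1

lemma ord : ∀ s ∈ S0, addOrderOf s = 4 := by
  intro s hs
  have h : 4 • s = 0 ∧ 2 • s ≠ 0 := by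
    revert s; decide +kernel
  have := addOrderOf_eq_prime_pow (p := 2) (n := 1) (x := s) (by simpa using h.2)
    (by simpa using h.1)
  simpa using this

theorem result :
    ∃ (G : Type) (_ : AddCommGroup G) (_ : Fintype G) (_ : DecidableEq G) (S A : Finset G)
      (γ : ℝ) (n d : ℕ),
      n = AddGroup.rank G ∧ AddSubgroup.closure (S : Set G) = ⊤ ∧
      IsLeast (addOrderOf '' (S : Set G)) d ∧ 0 < γ ∧ γ ≤ 1 ∧ A.Nonempty ∧
      (bdry S A : ℝ) ≤ (1 - γ) * n * A.card ∧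
      (A.card : ℝ) < (4 : ℝ) ^ ((1 - 1 / (d : ℝ)) * γ * n) ∧
      S.card = n ∧ γ < 1 ∧ A ≠ Finset.univ := by
  have hA : A0.card = 16 := by decide +kernel
  have hb : bdry S0 A0 = 16 := by decide +kernel
  refine ⟨G0, inferInstance, inferInstance, inferInstance, S0, A0, 3 / 4, 4, 4, rank0.symm, gen,
    ⟨⟨(0, 0, 0, 1), by simp [S0], ord _ (by simp [S0])⟩, ?_⟩, by norm_num, by norm_num,
    ⟨0, by decide +kernel⟩, ?_, ?_, by decide +kernel, by norm_num, by decide +kernel⟩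
  · rintro _ ⟨s, hs, rfl⟩
    exact (ord s hs).ge
  · rw [hA, hb]; norm_num
  · rw [hA]
    have h1 : ((16 : ℕ) : ℝ) = (4 : ℝ) ^ (2 : ℝ) := by norm_num
    rw [h1]
    exact Real.rpow_lt_rpow_of_exponent_lt (by norm_num) (by norm_num)

end Pool.Agent.Results.MP_039f74_co.Disproof
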